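import Mathlib
import Pool.Agent.Run7.h663.PA.AMain

/-!
Critical bond percolation on `ε ℤ²` (`p = 1/2`, the FK model with `q = 1` at its self-dual point)
in a Jordan domain with `C^(1,α)` boundary. For any interior vertex `x` and any two disjoint
boundary arcs `A`, `B`, the probability that the cluster of `x` touches both `A` and `B` is
determined up to multiplicative constants which depend only on the domain by `P(x ↔ A)`,
`P(x ↔ B)` and `P(A ↔ B)`, and it is given by a conformally covariant expression.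
-/

set_option autoImplicit false

namespace Pool.Agent.Results.MP_216314_pr.AnchoredClusters

open MeasureTheory

/-- The square lattice: two points of `ℤ²` are adjacent when they differ by one in exactly one
coordinate. -/
def Z2 : SimpleGraph (ℤ × ℤ) where
  Adj u v := |u.1 - v.1| + |u.2 - v.2| = 1
  symm := ⟨fun u v h => by rw [abs_sub_comm v.1, abs_sub_comm v.2]; exact h⟩
  loopless := ⟨fun u h => by simp at h⟩

/-- Critical bond percolation: every edge of the square lattice is open (`true`) with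
probability `1/2`, independently of the other edges. -/
noncomputable def crit : Measure (Z2.edgeSet → Bool) :=
  Measure.infinitePi (fun _ => ProbabilityTheory.bernoulliMeasure true false
    ⟨1/2, by norm_num, by norm_num⟩)

/-- The position of the vertex `v` of the lattice `ε ℤ²` in the plane. -/
noncomputable def pos (ε : ℝ) (v : ℤ × ℤ) : ℂ := ⟨ε * v.1, ε * v.2⟩

/-- The graph of the open edges of `ε ℤ²` with both endpoints in `D`. -/
def openGraph (ε : ℝ) (D : Set ℂ) (ω : Z2.edgeSet → Bool) : SimpleGraph (ℤ × ℤ) :=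
  SimpleGraph.fromEdgeSet {e | (∃ h : e ∈ Z2.edgeSet, ω ⟨e, h⟩ = true) ∧ ∀ v ∈ e, pos ε v ∈ D}

/-- The lattice approximation of the boundary arc `A` of `D`: the vertices of `ε ℤ²` in `D` at
distance at most `2 ε` from `A`. -/
def near (ε : ℝ) (D A : Set ℂ) : Set (ℤ × ℤ) :=
  {v | pos ε v ∈ D ∧ ∃ z ∈ A, dist (pos ε v) z ≤ 2 * ε}

/-- The probability that an open path of `ε ℤ²` in `D` joins the vertex `x` to `A`. -/
noncomputable def toArc (ε : ℝ) (D A : Set ℂ) (x : ℤ × ℤ) : ℝ :=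
  crit.real {ω | ∃ v ∈ near ε D A, (openGraph ε D ω).Reachable x v}

/-- The closed unit disc. -/
def disc : Set ℂ := Metric.closedBall 0 1

/-- `f` parametrizes a Jordan domain with `C^(1,α)` boundary, `0 < α ≤ 1`: it is injective and
continuous on the closed unit disc, conformal in the open unit disc, and its derivative extends to a
Hölder continuous function `g` without zeros on the closed unit disc. -/
def Smooth (f : ℂ → ℂ) : Prop :=
  Set.InjOn f disc ∧ ContinuousOn f disc ∧ ∃ (g : ℂ → ℂ) (M α : ℝ), 0 < α ∧ α ≤ 1 ∧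
    (∀ z, ‖z‖ < 1 → HasDerivAt f (g z) z) ∧ (∀ z ∈ disc, g z ≠ 0) ∧
    ∀ z ∈ disc, ∀ w ∈ disc, ‖g z - g w‖ ≤ M * ‖z - w‖ ^ α

/-- The point of the unit circle of argument `θ`. -/
noncomputable def cir (θ : ℝ) : ℂ := Complex.exp (θ * Complex.I)

/-- The boundary arc of the domain `f '' disc` from `f (cir a)` to `f (cir b)`. -/
def arc (f : ℂ → ℂ) (a b : ℝ) : Set ℂ := (fun θ => f (cir θ)) '' Set.Icc a b

/-- The conformal radius of the domain `f '' disc` seen from `f z`. -/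
noncomputable def confRad (f : ℂ → ℂ) (z : ℂ) : ℝ := ‖deriv f z‖ * (1 - ‖z‖ ^ 2)

/-- The harmonic measure of the boundary arc `arc f a b` of the domain `f '' disc` seen from `f z`,
that is, the harmonic measure of the arc `cir '' [a, b]` of the unit circle seen from `z`
(Poisson's formula). -/
noncomputable def harm (z : ℂ) (a b : ℝ) : ℝ :=
  (∫ t in a..b, (1 - ‖z‖ ^ 2) / ‖cir t - z‖ ^ 2) / (2 * Real.pi)

/-- The probability that an open path of `ε ℤ²` in `D` joins the boundary arcs `A` and `B`. -/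
noncomputable def arcToArc (ε : ℝ) (D A B : Set ℂ) : ℝ :=
  crit.real {ω | ∃ u ∈ near ε D A, ∃ v ∈ near ε D B, (openGraph ε D ω).Reachable u v}

/-- The probability that the vertex `x` is connected to both boundary arcs `A` and `B` by open paths
of `ε ℤ²` in `D`. -/
noncomputable def anchored (ε : ℝ) (D A B : Set ℂ) (x : ℤ × ℤ) : ℝ :=
  crit.real {ω | (∃ v ∈ near ε D A, (openGraph ε D ω).Reachable x v) ∧
    ∃ v ∈ near ε D B, (openGraph ε D ω).Reachable x v}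

/-- The cross-ratio of the four points of the unit circle of arguments `θ₁`, `θ₂`, `θ₃`, `θ₄`, that
is, of the four end-points of the arcs `arc f θ₁ θ₂` and `arc f θ₃ θ₄` of the boundary of the domain
`f '' disc`. -/
noncomputable def cross (θ₁ θ₂ θ₃ θ₄ : ℝ) : ℝ :=
  Real.sin ((θ₂ - θ₁) / 2) * Real.sin ((θ₄ - θ₃) / 2) /
    (Real.sin ((θ₃ - θ₁) / 2) * Real.sin ((θ₄ - θ₂) / 2))

/-- The conformally covariant expression for `anchored`, in terms of the conformal radius `r` of the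
domain seen from the vertex, of the harmonic measures `u`, `v` of the two arcs seen from the vertex,
and of the cross-ratio `l` of their end-points. -/
noncomputable def covAnchored (ε r u v l : ℝ) : ℝ :=
  (ε / r) ^ (5 / 48 : ℝ) * min (min (u ^ (1 / 3 : ℝ)) (v ^ (1 / 3 : ℝ))) ((u * v * l) ^ (1 / 6 : ℝ))

open Y989.SD in
theorem openGraph_adj {f : ℂ → ℂ} {ε : ℝ} (h : ∀ v, v ∈ TD f ε ↔ Y989.SD.pos ε v ∈ f '' Y989.SD.disc)
    (ω : Z2.edgeSet → Bool) (u v : ℤ × ℤ) :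
    (openGraph ε (f '' disc) ω).Adj u v ↔
      H974.Adj (H974.FF (H973.ES (TD f ε)) ω : Set H974.Edg) u v := by
  have hs : ∀ w, pos ε w ∈ f '' disc ↔ w ∈ TD f ε := fun w => (h w).symm
  unfold openGraph
  rw [SimpleGraph.fromEdgeSet_adj]
  constructor
  · rintro ⟨⟨⟨h, hω⟩, hV⟩, hne⟩
    have hadj : (H974.openGraph ω).Adj u v := by
      unfold H974.openGraph
      rw [SimpleGraph.fromEdgeSet_adj]
      exact ⟨⟨h, hω⟩, hne⟩
    obtain ⟨e, he, hcase⟩ := (H974.openGraph_adj ω u v).mp hadj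
    have hu : u ∈ TD f ε := (hs u).mp (hV u (Sym2.mem_mk_left u v))
    have hv : v ∈ TD f ε := (hs v).mp (hV v (Sym2.mem_mk_right u v))
    refine ⟨e, ?_, hcase⟩
    rw [Finset.mem_coe, H974.mem_FF, H973.mem_ES]
    refine ⟨?_, he⟩
    rcases hcase with ⟨h1, h2⟩ | ⟨h1, h2⟩
    · rw [h1, h2]; exact ⟨hu, hv⟩
    · rw [h1, h2]; exact ⟨hv, hu⟩
  · rintro ⟨e, he, hcase⟩
    rw [Finset.mem_coe, H974.mem_FF, H973.mem_ES] at he
    have hadj : (H974.openGraph ω).Adj u v := (H974.openGraph_adj ω u v).mpr ⟨e, he.2, hcase⟩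
    unfold H974.openGraph at hadj
    rw [SimpleGraph.fromEdgeSet_adj] at hadj
    refine ⟨⟨hadj.1, ?_⟩, hadj.2⟩
    intro w hw
    rw [hs]
    rcases Sym2.mem_iff.mp hw with rfl | rfl
    · rcases hcase with ⟨h1, h2⟩ | ⟨h1, h2⟩
      · rw [← h1]; exact he.1.1
      · rw [← h2]; exact he.1.2
    · rcases hcase with ⟨h1, h2⟩ | ⟨h1, h2⟩
      · rw [← h2]; exact he.1.2
      · rw [← h1]; exact he.1.1

theorem reach_iff {f : ℂ → ℂ} {ε : ℝ}
    (h : ∀ v, v ∈ Y989.SD.TD f ε ↔ Y989.SD.pos ε v ∈ f '' Y989.SD.disc)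
    (ω : Z2.edgeSet → Bool) (u v : ℤ × ℤ) : (openGraph ε (f '' disc) ω).Reachable u v ↔
      H974.Reach (H974.FF (H973.ES (Y989.SD.TD f ε)) ω : Set H974.Edg) u v := by
  rw [SimpleGraph.reachable_iff_reflTransGen]
  have : (openGraph ε (f '' disc) ω).Adj =
      H974.Adj (H974.FF (H973.ES (Y989.SD.TD f ε)) ω : Set H974.Edg) := by
    funext u v
    exact propext (openGraph_adj h ω u v)
  rw [this]
  rfl

theorem near_eq {f : ℂ → ℂ} {ε : ℝ}
    (h : ∀ v, v ∈ Y989.SD.TD f ε ↔ Y989.SD.pos ε v ∈ f '' Y989.SD.disc) (a b : ℝ) :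
    near ε (f '' disc) (arc f a b) = Y989.SD.near f ε a b := by
  ext v
  constructor
  · rintro ⟨h1, z, ⟨θ, ⟨h2, h3⟩, rfl⟩, h4⟩
    exact ⟨(h v).mpr h1, θ, h2, h3, by rw [dist_eq_norm] at h4; exact h4⟩
  · rintro ⟨h1, θ, h2, h3, h4⟩
    exact ⟨(h v).mp h1, f (cir θ), ⟨θ, ⟨h2, h3⟩, rfl⟩, by rw [dist_eq_norm]; exact h4⟩

theorem law {f : ℂ → ℂ} {ε : ℝ} (A : Finset H974.Edg → Prop) (E : Set (Z2.edgeSet → Bool))
    (h : ∀ ω, ω ∈ E ↔ A (H974.FF (H973.ES (Y989.SD.TD f ε)) ω)) :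
    crit.real E = H974.Pr Y989.SD.hf (H973.ES (Y989.SD.TD f ε)) A := by
  have e : crit.real E = (H974.bondLaw H974.hlf).real E := rfl
  rw [e]
  have e2 : E = {ω | A (H974.FF (H973.ES (Y989.SD.TD f ε)) ω)} := by
    ext ω
    exact h ω
  have h6 := H974.law_event H974.hlf (H973.ES (Y989.SD.TD f ε)) A
  exact (congrArg (fun s => (H974.bondLaw H974.hlf).real s) e2).trans h6

theorem toArc_eq {f : ℂ → ℂ} {ε : ℝ}
    (h : ∀ v, v ∈ Y989.SD.TD f ε ↔ Y989.SD.pos ε v ∈ f '' Y989.SD.disc) (a b : ℝ) (x : ℤ × ℤ) :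
    toArc ε (f '' disc) (arc f a b) x = Run7.h663.PA.PD f ε {x} (Y989.SD.near f ε a b) := by
  refine law (Run7.h663.PA.Duo {x} (Y989.SD.near f ε a b)) _ (fun ω => ?_)
  rw [near_eq h]
  constructor
  · rintro ⟨v, hv, hr⟩
    exact ⟨x, rfl, v, hv, (reach_iff h ω x v).mp hr⟩
  · rintro ⟨u, hu, v, hv, hr⟩
    rw [Set.mem_singleton_iff] at hu
    subst hu
    exact ⟨v, hv, (reach_iff h ω u v).mpr hr⟩

theorem arcToArc_eq {f : ℂ → ℂ} {ε : ℝ}
    (h : ∀ v, v ∈ Y989.SD.TD f ε ↔ Y989.SD.pos ε v ∈ f '' Y989.SD.disc) (θ₁ θ₂ θ₃ θ₄ : ℝ) :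
    arcToArc ε (f '' disc) (arc f θ₁ θ₂) (arc f θ₃ θ₄) = Y989.SD.PC f ε θ₁ θ₂ θ₃ θ₄ := by
  refine law (fun F : Finset H974.Edg => ∃ u ∈ Y989.SD.near f ε θ₁ θ₂,
    ∃ w ∈ Y989.SD.near f ε θ₃ θ₄, H974.Reach (F : Set H974.Edg) u w) _ (fun ω => ?_)
  rw [near_eq h, near_eq h]
  constructor
  · rintro ⟨u, hu, v, hv, hr⟩
    exact ⟨u, hu, v, hv, (reach_iff h ω u v).mp hr⟩
  · rintro ⟨u, hu, v, hv, hr⟩
    exact ⟨u, hu, v, hv, (reach_iff h ω u v).mpr hr⟩

theorem anchored_eq {f : ℂ → ℂ} {ε : ℝ}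
    (h : ∀ v, v ∈ Y989.SD.TD f ε ↔ Y989.SD.pos ε v ∈ f '' Y989.SD.disc) (θ₁ θ₂ θ₃ θ₄ : ℝ)
    (x : ℤ × ℤ) : anchored ε (f '' disc) (arc f θ₁ θ₂) (arc f θ₃ θ₄) x =
      Run7.h663.PA.PT f ε x (Y989.SD.near f ε θ₁ θ₂) (Y989.SD.near f ε θ₃ θ₄) := by
  refine law (Run7.h663.PA.Tri x (Y989.SD.near f ε θ₁ θ₂) (Y989.SD.near f ε θ₃ θ₄)) _
    (fun ω => ?_)
  rw [near_eq h, near_eq h]
  constructor
  · rintro ⟨⟨u, hu, h1⟩, v, hv, h2⟩
    exact ⟨u, hu, v, hv, (reach_iff h ω x u).mp h1, (reach_iff h ω x v).mp h2⟩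
  · rintro ⟨u, hu, v, hv, h1, h2⟩
    exact ⟨⟨u, hu, (reach_iff h ω x u).mpr h1⟩, v, hv, (reach_iff h ω x v).mpr h2⟩

/-- **One point and two boundary arcs, for critical percolation in `C^(1,α)` Jordan domains.** Let
`f` be a parametrization of a Jordan domain `D = f '' disc` with `C^(1,α)` boundary. There are
constants `c, C, K > 0` such that the following holds for every mesh `ε`, every vertex `x = f z` of
`ε ℤ²` in the interior of `D` at which the conformal radius `r` of `D` is at least `K ε`, and all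
disjoint boundary arcs `A = arc f θ₁ θ₂` and `B = arc f θ₃ θ₄` of angular lengths at least `ε`.

(1) The probability that `x` is connected to both `A` and `B` is, up to the factors `c` and `C`,
`min (P(x ↔ A), P(x ↔ B), (P(x ↔ A) P(x ↔ B) P(A ↔ B)) ^ (1/2))`.

(2) With `u`, `v` the harmonic measures of `A` and `B` seen from `x` and `l` the cross-ratio of the
four end-points of the arcs, it is also, up to the factors `c` and `C`, the conformally covariant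
expression `(ε / r) ^ (5/48) min (u ^ (1/3), v ^ (1/3), (u v l) ^ (1/6))`. -/
theorem result (f : ℂ → ℂ) (hf : Smooth f) : ∃ c C K : ℝ, 0 < c ∧ 0 < C ∧ 0 < K ∧
    ∀ (ε : ℝ) (x : ℤ × ℤ) (z : ℂ) (θ₁ θ₂ θ₃ θ₄ : ℝ), 0 < ε → ‖z‖ < 1 → f z = pos ε x →
      K * ε ≤ confRad f z → θ₁ < θ₂ → θ₂ < θ₃ → θ₃ < θ₄ → θ₄ < θ₁ + 2 * Real.pi →
      ε ≤ θ₂ - θ₁ → ε ≤ θ₄ - θ₃ →
      (c * min (min (toArc ε (f '' disc) (arc f θ₁ θ₂) x) (toArc ε (f '' disc) (arc f θ₃ θ₄) x))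
          √(toArc ε (f '' disc) (arc f θ₁ θ₂) x * toArc ε (f '' disc) (arc f θ₃ θ₄) x *
            arcToArc ε (f '' disc) (arc f θ₁ θ₂) (arc f θ₃ θ₄)) ≤
          anchored ε (f '' disc) (arc f θ₁ θ₂) (arc f θ₃ θ₄) x ∧
        anchored ε (f '' disc) (arc f θ₁ θ₂) (arc f θ₃ θ₄) x ≤
          C * min (min (toArc ε (f '' disc) (arc f θ₁ θ₂) x)
            (toArc ε (f '' disc) (arc f θ₃ θ₄) x))
          √(toArc ε (f '' disc) (arc f θ₁ θ₂) x * toArc ε (f '' disc) (arc f θ₃ θ₄) x *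
            arcToArc ε (f '' disc) (arc f θ₁ θ₂) (arc f θ₃ θ₄))) ∧
      c * covAnchored ε (confRad f z) (harm z θ₁ θ₂) (harm z θ₃ θ₄) (cross θ₁ θ₂ θ₃ θ₄) ≤
          anchored ε (f '' disc) (arc f θ₁ θ₂) (arc f θ₃ θ₄) x ∧
        anchored ε (f '' disc) (arc f θ₁ θ₂) (arc f θ₃ θ₄) x ≤
          C * covAnchored ε (confRad f z) (harm z θ₁ θ₂) (harm z θ₃ θ₄)
            (cross θ₁ θ₂ θ₃ θ₄) := by
  obtain ⟨hi, hc, g, M, α, ha0, ha1, hd, hn, hg⟩ := hf
  have hW : Y989.SD.SmW f g M α := Y989.SD.smW_of ha0 ha1 hi hc hd hn hg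
  obtain ⟨c1, C1, K1, hc1, hC1, hK1, h1⟩ := Run7.h663.PA.main_anc hW
  obtain ⟨c2, C2, K2, hc2, hC2, hK2, h2⟩ := Run7.h663.PA.main_anc' hW
  refine ⟨min c1 c2, max C1 C2, K1 + K2, lt_min hc1 hc2, lt_max_of_lt_left hC1,
    by positivity, ?_⟩
  intro ε x z θ₁ θ₂ θ₃ θ₄ hε hz hfz hKz h12 h23 h34 h41 hℓ hk
  have hr : confRad f z = ‖g z‖ * (1 - ‖z‖ ^ 2) := by
    unfold confRad
    rw [(hd z hz).deriv]
  rw [hr] at hKz ⊢
  have q1 : 0 < K1 * ε := by positivity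
  have q2 : 0 < K2 * ε := by positivity
  obtain ⟨hTD, p1, p2⟩ := h2 ε x z θ₁ θ₂ θ₃ θ₄ hε hz hfz (by nlinarith) h12 h23 h34 h41 hℓ hk
  obtain ⟨t1, t2⟩ := h1 ε x z θ₁ θ₂ θ₃ θ₄ hε hz hfz (by nlinarith) h12 h23 h34 h41 hℓ hk
  rw [toArc_eq hTD, toArc_eq hTD, arcToArc_eq hTD, anchored_eq hTD]
  have hT0 := Run7.h663.PA.PT_nonneg f ε x (Y989.SD.near f ε θ₁ θ₂) (Y989.SD.near f ε θ₃ θ₄)
  have hmin1 : min c1 c2 ≤ c1 := min_le_left _ _
  have hmin2 : min c1 c2 ≤ c2 := min_le_right _ _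
  have hmax1 : C1 ≤ max C1 C2 := le_max_left _ _
  have hmax2 : C2 ≤ max C1 C2 := le_max_right _ _
  have hm0 := nonneg_of_mul_nonneg_right (hT0.trans t2) hC1
  have hE0 := nonneg_of_mul_nonneg_right (hT0.trans p2) hC2
  exact ⟨⟨(mul_le_mul_of_nonneg_right hmin1 hm0).trans t1,
      t2.trans (mul_le_mul_of_nonneg_right hmax1 hm0)⟩,
    (mul_le_mul_of_nonneg_right hmin2 hE0).trans p1,
    p2.trans (mul_le_mul_of_nonneg_right hmax2 hE0)⟩

end Pool.Agent.Results.MP_216314_pr.AnchoredClusters
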