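import Pool.Agent.Run7.h165.GI.All
import Pool.Agent.Run7.h165.GI.Fml
import Pool.Agent.Run7.h165.GI.Rx5
import Pool.Agent.Run7.h165.CC.Tight

/-!
# Every complementary component of every arc of the limits of the critical interfaces

Critical bond percolation (`q = 1`, `p = 1 / 2`), every subsequential limit `γ` of an interface.

First part: the rectangle of the problem, with the left and lower sides wired and the right and
upper sides free, and the interface from corner to corner: its laws are relatively compact, and for
every subsequential limit `γ`, almost surely, `γ` goes from corner to corner, and for all the arcs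
`γ[s, t]` which are not constant, for all open sets `U` and all `w`, at once: the boundary of the
connected component of `w` in `U \ γ[s, t]` has in every open subset of `U ∩ D` which it meets (`D`
the open rectangle) Hausdorff dimension exactly `4 / 3`.

Second part: the same in every open set `D` (bounded or not, with any boundary), for every
discretisation and every boundary condition, and for all interfaces (exploration paths, loops).

Definitions: `Seq` (meshes, positions of the lattices, sampled edges, configurations), `Seq.Agree`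
in `Pool.Agent.Run7.h561.CC.Stm`; `Full`, `IsItf`, `Itf`, `law` in `Pool.Agent.Run7.h165.GI.Defs`;
`Gr`, `stA`, `stB`, `IsChord`, `rectD`, `rectSeq`, `Chordal` in `Pool.Agent.Run7.h165.GI.Rc`; states,
`nxt`, `orb` in `Pool.Agent.H984R3.Per.Defs`; `Curve` (paths up to reparametrisation) in
`Pool.Agent.H342R3.Lim.Curve`; `poly` (polygonal path) in `Pool.Agent.H342R3.Tig.Defs`.

Proof (project EC, helper561 and helper165; general domains: helper165): in a small square in `D`
the interface makes a tip where a ray from a point of the component hits it for the first time;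
near the tip, independently of the rest of the configuration and of the boundary condition, there
are boundary vertices which are accessible along the ray and form a set with the energy bounds of
dimension `4 / 3`; a deterministic argument sends each component of `U \ γ[s, t]`, near each
boundary point, to such a ray; arcs are reduced to the full trace since the double points have
dimension at most `3 / 4`; the upper bound comes from the half-plane three-arm exponent.
-/

set_option autoImplicit false

namespace Pool.Agent.Results.MP_216314_pr.EveryComponentAnyDomain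

open H974 H342L MeasureTheory Filter Topology
open Run7.h165.GI
open Run7.h561.CC (Seq)

/-- For all the arcs of `c` which are not constant and all the components of the complement of the
arc in any open set `U`: the boundary of the component has dimension exactly `4 / 3` in each open
subset `V` of `U ∩ D` which it meets. -/
def Good (D : Set ℂ) (c : Curve) : Prop :=
  ∀ s t : unitInterval, (∃ u ∈ Set.Icc s t, c.path u ≠ c.path s) →
    ∀ U : Set ℂ, IsOpen U → ∀ w : ℂ, ∀ V ⊆ U ∩ D, IsOpen V →
      (frontier (connectedComponentIn (U \ c.path '' Set.Icc s t) w) ∩ V).Nonempty →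
      dimH (frontier (connectedComponentIn (U \ c.path '' Set.Icc s t) w) ∩ V) = 4 / 3

theorem general {s : Seq} {D : Set ℂ} (hD : IsOpen D) (hag : s.Agree D)
    {γ : ℕ → Finset Edg → Curve} (hγ : Itf s D γ) {φ : ℕ → ℕ} (hφ : StrictMono φ)
    {μ : ProbabilityMeasure Curve} (hμ : Tendsto (fun i => law s γ (φ i)) atTop (𝓝 μ)) :
    ∀ᵐ c : Curve ∂(μ : Measure Curve), Good D c := by
  have h1 : Itf (Run7.h165.CC.sub s φ hφ) D (fun i => γ (φ i)) :=
    fun L hL hc => hφ.tendsto_atTop.eventually (hγ L hL hc)
  filter_upwards [t_GI hD (Run7.h165.CC.sub_agree hag hφ) h1 hμ] with c hc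
  intro a b hab U hU w V hV hVo hne
  exact open_dim (fun z hz hzW ρ hρ => hc a b hab U hU w z hzW.1 hzW.2 hz ρ hρ) hVo hV hne

theorem result :
    (∀ (o : ℂ) (a b : ℝ), 0 < a → 0 < b → ∀ (δ : ℕ → ℝ) (pos : ∀ n, 0 < δ n)
      (lim : Tendsto δ atTop (𝓝 0)), (∃ γ : ℕ → Finset Edg → Curve, Chordal o a b δ γ) ∧
      ∀ γ : ℕ → Finset Edg → Curve, Chordal o a b δ γ →
        (∃ (φ : ℕ → ℕ) (μ : ProbabilityMeasure Curve), StrictMono φ ∧
          Tendsto (fun i => law (rectSeq o a b δ pos lim) γ (φ i)) atTop (𝓝 μ)) ∧
        ∀ φ : ℕ → ℕ, StrictMono φ → ∀ μ : ProbabilityMeasure Curve,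
          Tendsto (fun i => law (rectSeq o a b δ pos lim) γ (φ i)) atTop (𝓝 μ) →
          ∀ᵐ c : Curve ∂(μ : Measure Curve), (c.path 0 = ⟨o.re, o.im + b⟩ ∧
            c.path 1 = ⟨o.re + a, o.im⟩) ∧ Good (rectD o a b) c) ∧
    ∀ (s : Seq) (D : Set ℂ), IsOpen D → s.Agree D → ∀ γ : ℕ → Finset Edg → Curve, Itf s D γ →
      ∀ φ : ℕ → ℕ, StrictMono φ → ∀ μ : ProbabilityMeasure Curve,
        Tendsto (fun i => law s γ (φ i)) atTop (𝓝 μ) →
        ∀ᵐ c : Curve ∂(μ : Measure Curve), Good D c := by
  refine ⟨fun o a b ha hb δ pos lim => ⟨?_, fun γ hγ =>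
    ⟨chord_subseq ha hb pos lim hγ, fun φ hφ μ hμ => ?_⟩⟩,
    fun s D hD hag γ hγ φ hφ μ hμ => general hD hag hγ hφ hμ⟩
  · have h : ∀ n, ∀ F : Finset Edg, ∃ c : Curve, F ⊆ RE 0 ⌊a / δ n⌋ 0 ⌊b / δ n⌋ →
        IsChord (δ n) o ⌊a / δ n⌋ ⌊b / δ n⌋ F c := by
      intro n F
      have hp := pos n
      by_cases hF : F ⊆ RE 0 ⌊a / δ n⌋ 0 ⌊b / δ n⌋
      · obtain ⟨c, hc⟩ := chord_exists (δ := δ n) (o := o) (m := ⌊a / δ n⌋) (h := ⌊b / δ n⌋)
          (Int.floor_nonneg.2 (by positivity)) (Int.floor_nonneg.2 (by positivity)) hF
        exact ⟨c, fun _ => hc⟩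
      · exact ⟨⟨ContinuousMap.const _ 0⟩, fun h => absurd h hF⟩
    choose γ hγ using h
    exact ⟨γ, fun n F hF => hγ n F hF⟩
  · filter_upwards [chord_ends (fun i => pos (φ i)) (lim.comp hφ.tendsto_atTop)
      (γ := fun i => γ (φ i)) (fun i F hF => hγ (φ i) F hF) hμ,
      general (rect_open o a b) (rect_agree o a b δ pos lim) (rect_itf ha hb pos lim hγ) hφ hμ]
      with c h1 h2
    exact ⟨h1, h2⟩

end Pool.Agent.Results.MP_216314_pr.EveryComponentAnyDomain
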