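import Pool.Agent.Run7.h537.FL.UpD
import Pool.Agent.H973R2.Main1

/-!
# Sharp tails and moments of the length of the frontier of the interface (`q = 1`)

Critical bond percolation on `ℤ²` in the box `Λ_n = {0, …, n}²`: `F` is the set of open edges,
uniformly distributed on the subsets of `edges n` (`Plain.prob`), `Plain.box n` is the set of the
vertices, `Plain.cluster F v` the cluster of `v` (these definitions are those of the starting file
`Pool/Agent/Results/MP_6bd702_pr/PerimeterExponent.lean`, in `Pool/Agent/H342R2/Per/Plain.lean`).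

The left side and the lower side of `Λ_n` are wired: the wired cluster is the union of the clusters
of their vertices (the state of the edges in these sides does not change this union).  The right side
and the upper side are free.  The interface separates the wired cluster from the dual cluster of the
free sides, and its frontier on the free side consists of the vertices of the wired cluster which can
be reached from the free sides without crossing the wired cluster.

Upper bound: a frontier vertex has three arms to the boundary of the box, and the number of the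
vertices with three arms has tails `exp (- c x ^ 3)` (multi-scale bound of helper992).  Lower bound: a
comb of open cells of side `m` under an arch of three open crossings which joins it to the wired sides,
with closed slits between the teeth and a gadget of helper561 in each of the `(n / m) ^ 2` places along
the slits.
-/

set_option autoImplicit false

namespace Pool.Agent.Results.MP_216314_pr.FrontierTail

open H342P

/-- The wired cluster: the union of the clusters of the vertices of the left side and of the lower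
side of `Λ_n`. -/
def wired (n : ℕ) (F : Finset Plain.Edge) : Set (ℤ × ℤ) :=
  {v | ∃ w ∈ Plain.box n, (w.1 = 0 ∨ w.2 = 0) ∧ v ∈ Plain.cluster F w}

/-- The lattice points beyond the wired sides: the complement of the quadrant. -/
def outside : Set (ℤ × ℤ) := {v | v.1 < 0 ∨ v.2 < 0}

/-- The square lattice without the vertices of the set `C`: nearest neighbours, both outside `C`. -/
def avoidGraph (C : Set (ℤ × ℤ)) : SimpleGraph (ℤ × ℤ) :=
  SimpleGraph.fromRel (fun u w => (∃ e : Plain.Edge, Plain.fst e = u ∧ Plain.snd e = w) ∧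
    u ∉ C ∧ w ∉ C)

/-- The vertex `w` of the wired cluster is on the frontier: some lattice neighbour `p` of `w` is in the
quadrant `x, y ≥ 0` and not in the wired cluster, and it is joined to a vertex `q` outside `Λ_n` by a
lattice path (through open or closed edges) in the quadrant which avoids the wired cluster. -/
def Frontier (n : ℕ) (F : Finset Plain.Edge) (w : ℤ × ℤ) : Prop :=
  w ∈ wired n F ∧ ∃ (e : Plain.Edge) (p q : ℤ × ℤ),
    ((Plain.fst e = w ∧ Plain.snd e = p) ∨ (Plain.fst e = p ∧ Plain.snd e = w)) ∧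
    p ∉ wired n F ∪ outside ∧ q ∉ Plain.box n ∧
    (avoidGraph (wired n F ∪ outside)).Reachable p q

open Classical in
/-- The set of the frontier vertices. -/
noncomputable def frontier (n : ℕ) (F : Finset Plain.Edge) : Finset (ℤ × ℤ) :=
  (Plain.box n).filter (fun w => Frontier n F w)

/-- The expectation of `f` for critical bond percolation in `Λ_n`. -/
noncomputable def mean (n : ℕ) (f : Finset Plain.Edge → ℝ) : ℝ :=
  (∑ F ∈ (Plain.edges n).powerset, f F) / 2 ^ (Plain.edges n).card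

theorem mean_eq (n : ℕ) (f : Finset Plain.Edge → ℝ) :
    mean n f = H974.Ex (fun _ => (1/2:ℝ)) (H974.RE 0 n 0 n) f := by
  rw [H973.Ex_half, mean, Plain.edges_eq, one_div, inv_pow, inv_mul_eq_div]

theorem wired_eq (n : ℕ) (F : Finset Plain.Edge) :
    wired n F = Run7.h537.FL.KW (Run7.h537.FL.Wd n) (↑F : Set H974.Edg) := by
  ext v
  constructor
  · rintro ⟨w, h1, h2, h3⟩
    exact ⟨w, ⟨h1, h2⟩, (Plain.mem_cluster F w v).1 h3⟩
  · rintro ⟨w, ⟨h1, h2⟩, h3⟩
    exact ⟨w, h1, h2, (Plain.mem_cluster F w v).2 h3⟩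

theorem card_eq (n : ℕ) (F : Finset Plain.Edge) :
    ((frontier n F).card : ℝ) = Run7.h537.FL.cntD n F := by
  classical
  unfold frontier Run7.h537.FL.cntD
  have h : ∀ w, Frontier n F w ↔ Run7.h537.FL.AccS
      (Run7.h537.FL.KW (Run7.h537.FL.Wd n) (↑F : Set H974.Edg))
      (Run7.h537.FL.KW (Run7.h537.FL.Wd n) (↑F : Set H974.Edg) ∪ Run7.h537.FL.Od)
      (Run7.h537.FL.Qb n) w := by
    intro w
    rw [Run7.h537.FL.accS_iff, ← wired_eq]
    exact Iff.rfl
  simp only [h]

theorem ubound : ∃ C : ℝ, 1 ≤ C ∧ ∀ (c : ℤ × ℤ) (k : ℕ), 1 ≤ k → ∀ S : Finset H974.Edg,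
    H12S.blk c k ⊆ S → H12S.PQ (1/2) S (fun F => Pool.Agent.W424.OD.A3v c 1 k ↑F) ≤
      C * (k : ℝ) ^ (-(2/3):ℝ) := by
  obtain ⟨C, hC, h⟩ := Run7.h561.i_U3
  refine ⟨C + 1, by linarith, fun c k hk S hS => ?_⟩
  have h1 := h c 1 k le_rfl hk S hS
  have hk0 : (0:ℝ) < k := by exact_mod_cast hk
  refine h1.trans ?_
  rw [Nat.cast_one, one_div, ← Real.rpow_neg_one, ← Real.rpow_mul hk0.le]
  norm_num
  exact mul_le_mul_of_nonneg_right (by linarith) (by positivity)

/-- Let `N` be the number of the frontier vertices of the wired cluster in `Λ_n`.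
(1) There are `C, c > 0` such that `P (N ≥ x n ^ (4/3)) ≤ C exp (- c x ^ 3)` for all `n ≥ 1`, `x ≥ 0`.
(2) There are `C, c > 0` and `n₀` such that `P (N ≥ x n ^ (4/3)) ≥ exp (- C x ^ 3)` for all `n ≥ n₀`
and `1 ≤ x ≤ c n ^ (2/3)`.
(3) There is `C > 0` such that `E (N ^ k) ≤ C ^ k (k!) ^ (1/3) (n ^ (4/3)) ^ k` for all `n ≥ 1` and
all `k`.
(4) There are `c > 0` and `n₀` such that `E (N ^ k) ≥ c ^ k (k!) ^ (1/3) (n ^ (4/3)) ^ k` for all
`n ≥ n₀` and all `k ≤ c n ^ 2`. -/
theorem result :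
    (∃ C c : ℝ, 0 < C ∧ 0 < c ∧ ∀ n : ℕ, 1 ≤ n → ∀ x : ℝ, 0 ≤ x →
      Plain.prob n (fun F => x * (n : ℝ) ^ (4 / 3 : ℝ) ≤ ((frontier n F).card : ℝ)) ≤
        C * Real.exp (-(c * x ^ 3))) ∧
    (∃ (C c : ℝ) (n₀ : ℕ), 0 < C ∧ 0 < c ∧ ∀ n : ℕ, n₀ ≤ n → ∀ x : ℝ, 1 ≤ x →
      x ≤ c * (n : ℝ) ^ (2 / 3 : ℝ) →
      Real.exp (-(C * x ^ 3)) ≤
        Plain.prob n (fun F => x * (n : ℝ) ^ (4 / 3 : ℝ) ≤ ((frontier n F).card : ℝ))) ∧
    (∃ C : ℝ, 0 < C ∧ ∀ n : ℕ, 1 ≤ n → ∀ k : ℕ,
      mean n (fun F => ((frontier n F).card : ℝ) ^ k) ≤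
        C ^ k * (k.factorial : ℝ) ^ (1 / 3 : ℝ) * ((n : ℝ) ^ (4 / 3 : ℝ)) ^ k) ∧
    (∃ (c : ℝ) (n₀ : ℕ), 0 < c ∧ ∀ n : ℕ, n₀ ≤ n → ∀ k : ℕ, (k : ℝ) ≤ c * (n : ℝ) ^ 2 →
      c ^ k * (k.factorial : ℝ) ^ (1 / 3 : ℝ) * ((n : ℝ) ^ (4 / 3 : ℝ)) ^ k ≤
        mean n (fun F => ((frontier n F).card : ℝ) ^ k)) := by
  obtain ⟨C1, hC1, hU⟩ := ubound
  obtain ⟨K, c, hK, hc, hup⟩ := Run7.h537.FL.upD hC1 hU
  obtain ⟨C', c', n0, hC', hc', hlow⟩ := Run7.h537.FL.lowD
  have hok : H974.Ok (fun _ : H974.Edg => (1/2:ℝ)) := fun _ => ⟨by norm_num, by norm_num⟩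
  have h0 : ∀ (n : ℕ) (F : Finset H974.Edg), 0 ≤ Run7.h537.FL.cntD n F := fun n F => by
    rw [← card_eq]
    exact Nat.cast_nonneg _
  have key : ∀ n : ℕ, 1 ≤ n → ∀ k : ℕ, mean n (fun F => ((frontier n F).card : ℝ) ^ k) =
      H974.Ex (fun _ => (1/2:ℝ)) (H974.RE 0 n 0 n)
        (fun F => (Run7.h537.FL.cntD n F / (n:ℝ) ^ (4/3:ℝ)) ^ k) * ((n:ℝ) ^ (4/3:ℝ)) ^ k := by
    intro n hn k
    have hn0 : (0:ℝ) < n := by exact_mod_cast hn
    have hN : 0 < (n:ℝ) ^ (4/3:ℝ) := by positivity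
    rw [mean_eq, ← H974.Ex_mul_right]
    apply H974.Ex_congr
    intro F _
    rw [← mul_pow, div_mul_cancel₀ _ hN.ne', card_eq]
  refine ⟨⟨K, c, hK, hc, ?_⟩, ⟨C', c', n0, hC', hc', ?_⟩, ?_, ?_⟩
  · intro n hn x hx
    rw [Plain.prob_eq]
    simp only [card_eq]
    exact hup n hn x hx
  · intro n hn x hx1 hx2
    rw [Plain.prob_eq]
    simp only [card_eq]
    exact hlow n hn x hx1 hx2
  · obtain ⟨C2, hC2, hm⟩ := Run7.h537.AT.mom_up hK hc
    refine ⟨C2, hC2, fun n hn k => ?_⟩
    have hn0 : (0:ℝ) < n := by exact_mod_cast hn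
    have hN : 0 < (n:ℝ) ^ (4/3:ℝ) := by positivity
    have h1 := hm (H974.RE 0 n 0 n)
      (fun F => Run7.h537.FL.cntD n F / (n:ℝ) ^ (4/3:ℝ)) (fun F => div_nonneg (h0 n F) hN.le)
      (fun x hx => by
        refine le_trans (H974.Pr_mono hok fun F _ hF => ?_) (hup n hn x hx)
        rw [le_div_iff₀ hN] at hF
        exact hF) k
    rw [key n hn]
    exact mul_le_mul_of_nonneg_right h1 (by positivity)
  · obtain ⟨c2, hc2, hm⟩ := Run7.h537.AT.mom_low hC' hc'
    refine ⟨c2, n0 + 1, hc2, fun n hn k hk => ?_⟩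
    have hn0 : (0:ℝ) < n := by
      have : 0 < n := by omega
      exact_mod_cast this
    have hN : 0 < (n:ℝ) ^ (4/3:ℝ) := by positivity
    have h1 := hm n (by omega) (H974.RE 0 n 0 n)
      (fun F => Run7.h537.FL.cntD n F / (n:ℝ) ^ (4/3:ℝ)) (fun F => div_nonneg (h0 n F) hN.le)
      (fun x hx1 hx2 => by
        refine (hlow n (by omega) x hx1 hx2).trans (H974.Pr_mono hok fun F hF h => ?_)
        rw [le_div_iff₀ hN]
        exact h) k hk
    rw [key n (by omega)]
    exact mul_le_mul_of_nonneg_right h1 (by positivity)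

end Pool.Agent.Results.MP_216314_pr.FrontierTail
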