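import Mathlib
import Pool.Agent.Run7.h663.PA.TFin

/-!
Critical bond percolation on `ε ℤ²` (`p = 1/2`, the FK model with `q = 1` at its self-dual point)
in a Jordan domain with `C^(1,α)` boundary: the two-point functions in the presence of a boundary
arc `A`. For any two interior vertices `x`, `y` and any boundary arc `A`, the probability that `x`,
`y` and `A` are connected, and the probability that `x` and `y` are both connected to `A`, are
determined up to multiplicative constants which depend only on the domain by `P(x ↔ y)`,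
`P(x ↔ A)` and `P(y ↔ A)`, and they are given by conformally covariant expressions.
-/

set_option autoImplicit false

namespace Pool.Agent.Results.MP_216314_pr.TwoPointsAndArc

open MeasureTheory

/-- The square lattice: two points of `ℤ²` are adjacent when they differ by one in exactly one
coordinate. -/
def Z2 : SimpleGraph (ℤ × ℤ) where
  Adj u v := |u.1 - v.1| + |u.2 - v.2| = 1
  symm := ⟨fun u v h => by rw [abs_sub_comm v.1, abs_sub_comm v.2]; exact h⟩
  loopless := ⟨fun u h => by simp at h⟩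

/-- Critical bond percolation: every edge of the square lattice is open (`true`) with
probability `1/2`, independently of the other edges. -/
noncomputable def crit : Measure (Z2.edgeSet → Bool) :=
  Measure.infinitePi (fun _ => ProbabilityTheory.bernoulliMeasure true false
    ⟨1/2, by norm_num, by norm_num⟩)

/-- The position of the vertex `v` of the lattice `ε ℤ²` in the plane. -/
noncomputable def pos (ε : ℝ) (v : ℤ × ℤ) : ℂ := ⟨ε * v.1, ε * v.2⟩

/-- The graph of the open edges of `ε ℤ²` with both endpoints in `D`. -/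
def openGraph (ε : ℝ) (D : Set ℂ) (ω : Z2.edgeSet → Bool) : SimpleGraph (ℤ × ℤ) :=
  SimpleGraph.fromEdgeSet {e | (∃ h : e ∈ Z2.edgeSet, ω ⟨e, h⟩ = true) ∧ ∀ v ∈ e, pos ε v ∈ D}

/-- The two-point function of the domain `D`: the probability that an open path of `ε ℤ²` in `D`
joins the vertices `x` and `y`. -/
noncomputable def twoPoint (ε : ℝ) (D : Set ℂ) (x y : ℤ × ℤ) : ℝ :=
  crit.real {ω | (openGraph ε D ω).Reachable x y}

/-- The lattice approximation of the boundary arc `A` of `D`: the vertices of `ε ℤ²` in `D` at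
distance at most `2 ε` from `A`. -/
def near (ε : ℝ) (D A : Set ℂ) : Set (ℤ × ℤ) :=
  {v | pos ε v ∈ D ∧ ∃ z ∈ A, dist (pos ε v) z ≤ 2 * ε}

/-- The probability that an open path of `ε ℤ²` in `D` joins the vertex `x` to `A`. -/
noncomputable def toArc (ε : ℝ) (D A : Set ℂ) (x : ℤ × ℤ) : ℝ :=
  crit.real {ω | ∃ v ∈ near ε D A, (openGraph ε D ω).Reachable x v}

/-- The closed unit disc. -/
def disc : Set ℂ := Metric.closedBall 0 1

/-- `f` parametrizes a Jordan domain with `C^(1,α)` boundary, `0 < α ≤ 1`: it is injective and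
continuous on the closed unit disc, conformal in the open unit disc, and its derivative extends to a
Hölder continuous function `g` without zeros on the closed unit disc. -/
def Smooth (f : ℂ → ℂ) : Prop :=
  Set.InjOn f disc ∧ ContinuousOn f disc ∧ ∃ (g : ℂ → ℂ) (M α : ℝ), 0 < α ∧ α ≤ 1 ∧
    (∀ z, ‖z‖ < 1 → HasDerivAt f (g z) z) ∧ (∀ z ∈ disc, g z ≠ 0) ∧
    ∀ z ∈ disc, ∀ w ∈ disc, ‖g z - g w‖ ≤ M * ‖z - w‖ ^ α

/-- The point of the unit circle of argument `θ`. -/
noncomputable def cir (θ : ℝ) : ℂ := Complex.exp (θ * Complex.I)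

/-- The boundary arc of the domain `f '' disc` from `f (cir a)` to `f (cir b)`. -/
def arc (f : ℂ → ℂ) (a b : ℝ) : Set ℂ := (fun θ => f (cir θ)) '' Set.Icc a b

/-- The conformal radius of the domain `f '' disc` seen from `f z`. -/
noncomputable def confRad (f : ℂ → ℂ) (z : ℂ) : ℝ := ‖deriv f z‖ * (1 - ‖z‖ ^ 2)

/-- The pseudo-hyperbolic distance of two points of the unit disc, that is, of the points `f z` and
`f w` of the domain `f '' disc`. It is `tanh (ρ / 2)`, where `ρ` is the hyperbolic distance. -/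
noncomputable def pseudo (z w : ℂ) : ℝ := ‖z - w‖ / ‖1 - (starRingEnd ℂ) z * w‖

/-- The harmonic measure of the boundary arc `arc f a b` of the domain `f '' disc` seen from `f z`,
that is, the harmonic measure of the arc `cir '' [a, b]` of the unit circle seen from `z`
(Poisson's formula). -/
noncomputable def harm (z : ℂ) (a b : ℝ) : ℝ :=
  (∫ t in a..b, (1 - ‖z‖ ^ 2) / ‖cir t - z‖ ^ 2) / (2 * Real.pi)

/-- The probability that the vertices `x` and `y` and the boundary arc `A` are connected by open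
paths of `ε ℤ²` in `D`. -/
noncomputable def joined (ε : ℝ) (D A : Set ℂ) (x y : ℤ × ℤ) : ℝ :=
  crit.real {ω | (openGraph ε D ω).Reachable x y ∧
    ∃ v ∈ near ε D A, (openGraph ε D ω).Reachable x v}

/-- The probability that each of the vertices `x` and `y` is connected to the boundary arc `A` by an
open path of `ε ℤ²` in `D`: the two-point function of the wired cluster of `A`. -/
noncomputable def both (ε : ℝ) (D A : Set ℂ) (x y : ℤ × ℤ) : ℝ :=
  crit.real {ω | (∃ v ∈ near ε D A, (openGraph ε D ω).Reachable x v) ∧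
    ∃ v ∈ near ε D A, (openGraph ε D ω).Reachable y v}

/-- The conformally covariant expression for `joined`, in terms of the conformal radii `r`, `s` of
the domain seen from the two vertices, of their pseudo-hyperbolic distance `q`, and of the harmonic
measures `u`, `v` of the arc seen from the two vertices. -/
noncomputable def covJoined (ε r s q u v : ℝ) : ℝ :=
  (ε / r) ^ (5 / 48 : ℝ) * (ε / s) ^ (5 / 48 : ℝ) *
    min (q ^ (-(5 / 24 : ℝ)) * (1 - q ^ 2) ^ (1 / 3 : ℝ))
      (q ^ (-(5 / 48 : ℝ)) * ((1 - q ^ 2) * (u * v)) ^ (1 / 6 : ℝ))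

/-- The conformally covariant expression for `both`, in terms of the same quantities. -/
noncomputable def covBoth (ε r s q u v : ℝ) : ℝ :=
  (ε / r) ^ (5 / 48 : ℝ) * (ε / s) ^ (5 / 48 : ℝ) *
    max ((u * v) ^ (1 / 3 : ℝ)) (q ^ (-(5 / 48 : ℝ)) * ((1 - q ^ 2) * (u * v)) ^ (1 / 6 : ℝ))

open Y989.SD in
theorem openGraph_adj {f : ℂ → ℂ} {ε : ℝ} (h : ∀ v, v ∈ TD f ε ↔ Y989.SD.pos ε v ∈ f '' Y989.SD.disc)
    (ω : Z2.edgeSet → Bool) (u v : ℤ × ℤ) :
    (openGraph ε (f '' disc) ω).Adj u v ↔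
      H974.Adj (H974.FF (H973.ES (TD f ε)) ω : Set H974.Edg) u v := by
  have hs : ∀ w, pos ε w ∈ f '' disc ↔ w ∈ TD f ε := fun w => (h w).symm
  unfold openGraph
  rw [SimpleGraph.fromEdgeSet_adj]
  constructor
  · rintro ⟨⟨⟨h, hω⟩, hV⟩, hne⟩
    have hadj : (H974.openGraph ω).Adj u v := by
      unfold H974.openGraph
      rw [SimpleGraph.fromEdgeSet_adj]
      exact ⟨⟨h, hω⟩, hne⟩
    obtain ⟨e, he, hcase⟩ := (H974.openGraph_adj ω u v).mp hadj
    have hu : u ∈ TD f ε := (hs u).mp (hV u (Sym2.mem_mk_left u v))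
    have hv : v ∈ TD f ε := (hs v).mp (hV v (Sym2.mem_mk_right u v))
    refine ⟨e, ?_, hcase⟩
    rw [Finset.mem_coe, H974.mem_FF, H973.mem_ES]
    refine ⟨?_, he⟩
    rcases hcase with ⟨h1, h2⟩ | ⟨h1, h2⟩
    · rw [h1, h2]; exact ⟨hu, hv⟩
    · rw [h1, h2]; exact ⟨hv, hu⟩
  · rintro ⟨e, he, hcase⟩
    rw [Finset.mem_coe, H974.mem_FF, H973.mem_ES] at he
    have hadj : (H974.openGraph ω).Adj u v := (H974.openGraph_adj ω u v).mpr ⟨e, he.2, hcase⟩
    unfold H974.openGraph at hadj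
    rw [SimpleGraph.fromEdgeSet_adj] at hadj
    refine ⟨⟨hadj.1, ?_⟩, hadj.2⟩
    intro w hw
    rw [hs]
    rcases Sym2.mem_iff.mp hw with rfl | rfl
    · rcases hcase with ⟨h1, h2⟩ | ⟨h1, h2⟩
      · rw [← h1]; exact he.1.1
      · rw [← h2]; exact he.1.2
    · rcases hcase with ⟨h1, h2⟩ | ⟨h1, h2⟩
      · rw [← h2]; exact he.1.2
      · rw [← h1]; exact he.1.1

theorem reach_iff {f : ℂ → ℂ} {ε : ℝ}
    (h : ∀ v, v ∈ Y989.SD.TD f ε ↔ Y989.SD.pos ε v ∈ f '' Y989.SD.disc)
    (ω : Z2.edgeSet → Bool) (u v : ℤ × ℤ) : (openGraph ε (f '' disc) ω).Reachable u v ↔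
      H974.Reach (H974.FF (H973.ES (Y989.SD.TD f ε)) ω : Set H974.Edg) u v := by
  rw [SimpleGraph.reachable_iff_reflTransGen]
  have : (openGraph ε (f '' disc) ω).Adj =
      H974.Adj (H974.FF (H973.ES (Y989.SD.TD f ε)) ω : Set H974.Edg) := by
    funext u v
    exact propext (openGraph_adj h ω u v)
  rw [this]
  rfl

theorem near_eq {f : ℂ → ℂ} {ε : ℝ}
    (h : ∀ v, v ∈ Y989.SD.TD f ε ↔ Y989.SD.pos ε v ∈ f '' Y989.SD.disc) (a b : ℝ) :
    near ε (f '' disc) (arc f a b) = Y989.SD.near f ε a b := by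
  ext v
  constructor
  · rintro ⟨h1, z, ⟨θ, ⟨h2, h3⟩, rfl⟩, h4⟩
    exact ⟨(h v).mpr h1, θ, h2, h3, by rw [dist_eq_norm] at h4; exact h4⟩
  · rintro ⟨h1, θ, h2, h3, h4⟩
    exact ⟨(h v).mp h1, f (cir θ), ⟨θ, ⟨h2, h3⟩, rfl⟩, by rw [dist_eq_norm]; exact h4⟩

theorem law {f : ℂ → ℂ} {ε : ℝ} (A : Finset H974.Edg → Prop) (E : Set (Z2.edgeSet → Bool))
    (h : ∀ ω, ω ∈ E ↔ A (H974.FF (H973.ES (Y989.SD.TD f ε)) ω)) :
    crit.real E = H974.Pr Y989.SD.hf (H973.ES (Y989.SD.TD f ε)) A := by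
  have e : crit.real E = (H974.bondLaw H974.hlf).real E := rfl
  rw [e]
  have e2 : E = {ω | A (H974.FF (H973.ES (Y989.SD.TD f ε)) ω)} := by
    ext ω
    exact h ω
  have h6 := H974.law_event H974.hlf (H973.ES (Y989.SD.TD f ε)) A
  exact (congrArg (fun s => (H974.bondLaw H974.hlf).real s) e2).trans h6

theorem twoPoint_eq {f : ℂ → ℂ} {ε : ℝ}
    (h : ∀ v, v ∈ Y989.SD.TD f ε ↔ Y989.SD.pos ε v ∈ f '' Y989.SD.disc) (x y : ℤ × ℤ) :
    twoPoint ε (f '' disc) x y = Run7.h663.PA.PP f ε x y :=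
  law (fun F : Finset H974.Edg => H974.Reach (F : Set H974.Edg) x y) _ (fun ω => reach_iff h ω x y)

theorem toArc_eq {f : ℂ → ℂ} {ε : ℝ}
    (h : ∀ v, v ∈ Y989.SD.TD f ε ↔ Y989.SD.pos ε v ∈ f '' Y989.SD.disc) (a b : ℝ) (x : ℤ × ℤ) :
    toArc ε (f '' disc) (arc f a b) x = Run7.h663.PA.PD f ε {x} (Y989.SD.near f ε a b) := by
  refine law (Run7.h663.PA.Duo {x} (Y989.SD.near f ε a b)) _ (fun ω => ?_)
  rw [near_eq h]
  constructor
  · rintro ⟨v, hv, hr⟩
    exact ⟨x, rfl, v, hv, (reach_iff h ω x v).mp hr⟩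
  · rintro ⟨u, hu, v, hv, hr⟩
    rw [Set.mem_singleton_iff] at hu
    subst hu
    exact ⟨v, hv, (reach_iff h ω u v).mpr hr⟩

theorem joined_eq {f : ℂ → ℂ} {ε : ℝ}
    (h : ∀ v, v ∈ Y989.SD.TD f ε ↔ Y989.SD.pos ε v ∈ f '' Y989.SD.disc) (a b : ℝ)
    (x y : ℤ × ℤ) :
    joined ε (f '' disc) (arc f a b) x y =
      Run7.h663.PA.PT f ε x {y} (Y989.SD.near f ε a b) := by
  refine law (Run7.h663.PA.Tri x {y} (Y989.SD.near f ε a b)) _ (fun ω => ?_)
  rw [near_eq h]
  constructor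
  · rintro ⟨hxy, v, hv, hr⟩
    exact ⟨y, rfl, v, hv, (reach_iff h ω x y).mp hxy, (reach_iff h ω x v).mp hr⟩
  · rintro ⟨u, hu, v, hv, h1, h2⟩
    rw [Set.mem_singleton_iff] at hu
    subst hu
    exact ⟨(reach_iff h ω x u).mpr h1, v, hv, (reach_iff h ω x v).mpr h2⟩

theorem both_eq {f : ℂ → ℂ} {ε : ℝ}
    (h : ∀ v, v ∈ Y989.SD.TD f ε ↔ Y989.SD.pos ε v ∈ f '' Y989.SD.disc) (a b : ℝ)
    (x y : ℤ × ℤ) :
    both ε (f '' disc) (arc f a b) x y = Run7.h663.PA.PW f ε x y (Y989.SD.near f ε a b) := by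
  refine law (fun F => Run7.h663.PA.Duo {x} (Y989.SD.near f ε a b) F ∧
    Run7.h663.PA.Duo {y} (Y989.SD.near f ε a b) F) _ (fun ω => ?_)
  rw [near_eq h]
  constructor
  · rintro ⟨⟨v, hv, h1⟩, v', hv', h2⟩
    exact ⟨⟨x, rfl, v, hv, (reach_iff h ω x v).mp h1⟩, y, rfl, v', hv',
      (reach_iff h ω y v').mp h2⟩
  · rintro ⟨⟨u, hu, v, hv, h1⟩, u', hu', v', hv', h2⟩
    rw [Set.mem_singleton_iff] at hu hu'
    subst hu hu'
    exact ⟨⟨v, hv, (reach_iff h ω u v).mpr h1⟩, v', hv', (reach_iff h ω u' v').mpr h2⟩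

/-- **Two points and a boundary arc, for critical percolation in `C^(1,α)` Jordan domains.** Let `f`
be a parametrization of a Jordan domain `D = f '' disc` with `C^(1,α)` boundary. There are constants
`c, C, K > 0` such that the following holds for every mesh `ε`, all distinct vertices `x = f z` and
`y = f w` of `ε ℤ²` in the interior of `D` at which the conformal radius of `D` is at least `K ε`,
and every boundary arc `A` of angular length at least `ε` (up to the whole boundary). All the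
estimates hold up to the factors `c` and `C`.

(1) The probability that `x`, `y` and `A` are connected is
`min (P(x ↔ y), (P(x ↔ y) P(x ↔ A) P(y ↔ A)) ^ (1/2))`.

(2) The probability that `x` and `y` are both connected to `A` is
`max (P(x ↔ A) P(y ↔ A), (P(x ↔ y) P(x ↔ A) P(y ↔ A)) ^ (1/2))`.

(3), (4) These probabilities are given by the conformally covariant expressions `covJoined` and
`covBoth`: with `r`, `s` the conformal radii of `D` seen from `x` and `y`, `q` their
pseudo-hyperbolic distance in `D`, and `u`, `v` the harmonic measures of `A` seen from `x` and `y`,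
they are `(ε / r) ^ (5/48) (ε / s) ^ (5/48)` times, respectively,
`min (q ^ (-5/24) (1 - q²) ^ (1/3), q ^ (-5/48) ((1 - q²) u v) ^ (1/6))` and
`max ((u v) ^ (1/3), q ^ (-5/48) ((1 - q²) u v) ^ (1/6))`. -/
theorem result (f : ℂ → ℂ) (hf : Smooth f) : ∃ c C K : ℝ, 0 < c ∧ 0 < C ∧ 0 < K ∧
    ∀ (ε : ℝ) (x y : ℤ × ℤ) (z w : ℂ) (a b : ℝ), 0 < ε → ‖z‖ < 1 → ‖w‖ < 1 →
      f z = pos ε x → f w = pos ε y → x ≠ y → K * ε ≤ confRad f z → K * ε ≤ confRad f w →
      ε ≤ b - a → b ≤ a + 2 * Real.pi →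
      (c * min (twoPoint ε (f '' disc) x y) √(twoPoint ε (f '' disc) x y *
          toArc ε (f '' disc) (arc f a b) x * toArc ε (f '' disc) (arc f a b) y) ≤
          joined ε (f '' disc) (arc f a b) x y ∧
        joined ε (f '' disc) (arc f a b) x y ≤
          C * min (twoPoint ε (f '' disc) x y) √(twoPoint ε (f '' disc) x y *
          toArc ε (f '' disc) (arc f a b) x * toArc ε (f '' disc) (arc f a b) y)) ∧
      (c * max (toArc ε (f '' disc) (arc f a b) x * toArc ε (f '' disc) (arc f a b) y)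
          √(twoPoint ε (f '' disc) x y *
          toArc ε (f '' disc) (arc f a b) x * toArc ε (f '' disc) (arc f a b) y) ≤
          both ε (f '' disc) (arc f a b) x y ∧
        both ε (f '' disc) (arc f a b) x y ≤
          C * max (toArc ε (f '' disc) (arc f a b) x * toArc ε (f '' disc) (arc f a b) y)
          √(twoPoint ε (f '' disc) x y *
          toArc ε (f '' disc) (arc f a b) x * toArc ε (f '' disc) (arc f a b) y)) ∧
      (c * covJoined ε (confRad f z) (confRad f w) (pseudo z w) (harm z a b) (harm w a b) ≤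
          joined ε (f '' disc) (arc f a b) x y ∧
        joined ε (f '' disc) (arc f a b) x y ≤
          C * covJoined ε (confRad f z) (confRad f w) (pseudo z w) (harm z a b) (harm w a b)) ∧
      (c * covBoth ε (confRad f z) (confRad f w) (pseudo z w) (harm z a b) (harm w a b) ≤
          both ε (f '' disc) (arc f a b) x y ∧
        both ε (f '' disc) (arc f a b) x y ≤
          C * covBoth ε (confRad f z) (confRad f w) (pseudo z w) (harm z a b) (harm w a b)) := by
  obtain ⟨hi, hc, g, M, α, ha0, ha1, hd, hn, hg⟩ := hf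
  have hW : Y989.SD.SmW f g M α := Y989.SD.smW_of ha0 ha1 hi hc hd hn hg
  obtain ⟨c1, C1, K1, hc1, hC1, hK1, h1⟩ := Run7.h663.PA.main_fw hW
  obtain ⟨c2, C2, K2, hc2, hC2, hK2, h2⟩ := Run7.h663.PA.main_cov hW
  refine ⟨min c1 c2, max C1 C2, K1 + K2, lt_min hc1 hc2, lt_max_of_lt_left hC1,
    by positivity, ?_⟩
  intro ε x y z w a b hε hz hw hfz hfw hxy hKz hKw hab hb
  have hr : ∀ z : ℂ, ‖z‖ < 1 → confRad f z = ‖g z‖ * (1 - ‖z‖ ^ 2) := by
    intro z hz
    unfold confRad
    rw [(hd z hz).deriv]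
  have hK : ∀ t : ℝ, (K1 + K2) * ε ≤ t → K1 * ε ≤ t ∧ K2 * ε ≤ t := by
    intro t ht
    have q1 : 0 < K1 * ε := by positivity
    have q2 : 0 < K2 * ε := by positivity
    constructor <;> nlinarith
  rw [hr z hz] at hKz ⊢
  rw [hr w hw] at hKw ⊢
  obtain ⟨kz1, kz2⟩ := hK _ hKz
  obtain ⟨kw1, kw2⟩ := hK _ hKw
  obtain ⟨hTD, p1, p2, p3, p4⟩ := h2 ε x y z w a b hε hz hw hfz hfw hxy kz2 kw2 hab hb
  obtain ⟨t1, t2, t3, t4⟩ := h1 ε x y z w a b hε hz hw hfz hfw hxy kz1 kw1 hab
  rw [twoPoint_eq hTD, toArc_eq hTD, toArc_eq hTD, joined_eq hTD, both_eq hTD]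
  have hP0 := Run7.h663.PA.PP_nonneg f ε x y
  have hx0 := Run7.h663.PA.PD_nonneg f ε {x} (Y989.SD.near f ε a b)
  have hy0 := Run7.h663.PA.PD_nonneg f ε {y} (Y989.SD.near f ε a b)
  have hT0 := Run7.h663.PA.PT_nonneg f ε x {y} (Y989.SD.near f ε a b)
  have hmin1 : min c1 c2 ≤ c1 := min_le_left _ _
  have hmin2 : min c1 c2 ≤ c2 := min_le_right _ _
  have hmax1 : C1 ≤ max C1 C2 := le_max_left _ _
  have hmax2 : C2 ≤ max C1 C2 := le_max_right _ _
  have hm0 := le_min hP0 (Real.sqrt_nonneg (Run7.h663.PA.PP f ε x y *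
    Run7.h663.PA.PD f ε {x} (Y989.SD.near f ε a b) *
    Run7.h663.PA.PD f ε {y} (Y989.SD.near f ε a b)))
  have hM0 := (Real.sqrt_nonneg (Run7.h663.PA.PP f ε x y *
    Run7.h663.PA.PD f ε {x} (Y989.SD.near f ε a b) *
    Run7.h663.PA.PD f ε {y} (Y989.SD.near f ε a b))).trans (le_max_right
    (Run7.h663.PA.PD f ε {x} (Y989.SD.near f ε a b) *
    Run7.h663.PA.PD f ε {y} (Y989.SD.near f ε a b)) _)
  have hW0 : 0 ≤ Run7.h663.PA.PW f ε x y (Y989.SD.near f ε a b) :=
    hT0.trans (Run7.h663.PA.PT_le_PW _ _ _ _ _)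
  have hE0 := nonneg_of_mul_nonneg_right (hT0.trans p2) hC2
  have hF0 := nonneg_of_mul_nonneg_right (hW0.trans p4) hC2
  exact ⟨⟨(mul_le_mul_of_nonneg_right hmin1 hm0).trans t1,
      t2.trans (mul_le_mul_of_nonneg_right hmax1 hm0)⟩,
    ⟨(mul_le_mul_of_nonneg_right hmin1 hM0).trans t3,
      t4.trans (mul_le_mul_of_nonneg_right hmax1 hM0)⟩,
    ⟨(mul_le_mul_of_nonneg_right hmin2 hE0).trans p1,
      p2.trans (mul_le_mul_of_nonneg_right hmax2 hE0)⟩,
    ⟨(mul_le_mul_of_nonneg_right hmin2 hF0).trans p3,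
      p4.trans (mul_le_mul_of_nonneg_right hmax2 hF0)⟩⟩

end Pool.Agent.Results.MP_216314_pr.TwoPointsAndArc
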